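import Mathlib
import Pool.Agent.LieInf.Main

/-! MP_5314be_al: there is an infinitely generated Lie algebra all of whose proper subalgebras
are finitely generated.  (Characteristic 3: `L = Ω δ` for a field `Ω` with a derivation `δ`,
bracket `{f, g} = f δ g - g δ f`, over `k = ker δ`; proper subalgebras are even finite
dimensional.) -/

namespace Pool.Agent.Results.MP_5314be_al.Exists

theorem result : ∃ (k : Type) (_ : Field k) (L : Type) (_ : LieRing L) (_ : LieAlgebra k L),
    (¬ ∃ S : Finset L, LieSubalgebra.lieSpan k L (S : Set L) = ⊤) ∧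
      ∀ M : LieSubalgebra k L, M ≠ ⊤ →
        ∃ S : Finset L, LieSubalgebra.lieSpan k L (S : Set L) = M := by
  obtain ⟨k, ik, L, iL, iA, h1, h2⟩ := Pool.Agent.LieInf.main
  refine ⟨k, ik, L, iL, iA, h1, fun M hM => ?_⟩
  have hfd : FiniteDimensional k M.toSubmodule := h2 M hM
  obtain ⟨S, hS⟩ := (Submodule.fg_iff_finiteDimensional M.toSubmodule).mpr hfd
  refine ⟨S, le_antisymm ?_ ?_⟩
  · rw [LieSubalgebra.lieSpan_le]
    intro y hy
    have : y ∈ M.toSubmodule := by
      rw [← hS]; exact Submodule.subset_span hy
    exact this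
  · intro y hy
    have hy' : y ∈ Submodule.span k (S : Set L) := by rw [hS]; exact hy
    exact LieSubalgebra.submodule_span_le_lieSpan hy'

end Pool.Agent.Results.MP_5314be_al.Exists
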